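import Pool.Agent.T6.H22.Mon3

/-!
# Which properties of monster groups can coexist

The main point is a dichotomy for type (6): a finitely generated infinite group with finitely many
conjugacy classes either has bounded exponent, or it has exponential growth and a proper
noncyclic subgroup.
-/

set_option autoImplicit false

open Subgroup Pool.Agent.T6.H22.Mon

namespace Pool.Agent.Results.MP_65b575_al.CoexistingMonsters

universe u

theorem fivesub {G : Type u} [Group G] [Infinite G] [Group.FG G] (h5 : Type5 G) :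
    ¬ Type2 G ∧ ¬ Type3 G ∧ ¬ Type4 G := by
  have hnt : Nontrivial G := inferInstance
  exact ⟨fun h => not_two_five h h5, fun h => not_five_of_three hnt h h5,
    fun h => not_five_of_three hnt (four_three h) h5⟩

theorem sixsub {G : Type u} [Group G] [Infinite G] (S : Finset G)
    (hS : closure (S : Set G) = ⊤) (h6 : Type6 G) (h2 : ¬ Type2 G) :
    Exponential S ∧ ∃ H : Subgroup G, H ≠ ⊤ ∧ ¬ IsCyclic H := by
  have hfg : Group.FG G := Group.fg_def.2 ⟨S, hS⟩
  obtain ⟨g, hg⟩ : ∃ g : G, ¬ IsOfFinOrder g := by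
    by_contra hcon
    push Not at hcon
    exact h2 (two_of_torsion h6 hcon)
  obtain ⟨a, b, t, ha, hab, ht⟩ := exists_bs h6 hg
  refine ⟨exp_growth hS hg ha hab ht, ?_⟩
  by_contra hcon
  push Not at hcon
  exact no_bs hcon hg ha hab ht

theorem stronger {G : Type u} [Group G] [hinf : Infinite G] [hfp : Group.IsFinitelyPresented G]
    (h6 : Type6 G) (h2 : Type2 G) :
    ∃ (H : Type u) (_ : Group H), IsSimpleGroup H ∧ Infinite H ∧ Group.IsFinitelyPresented H ∧
      Type2 H ∧ Type6 H := by
  have : Finite (ConjClasses G) := h6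
  obtain ⟨-, -, ⟨K, hK, hs⟩, h4⟩ := Pool.Agent.V11238.MG.conj_main (G := G)
  obtain ⟨h5, h6, h7⟩ := h4 K hs
  obtain ⟨n, hn, h⟩ := h2
  refine ⟨_, inferInstance, hs, h5, h6, ⟨n, hn, fun x => ?_⟩, h7⟩
  obtain ⟨y, rfl⟩ := QuotientGroup.mk_surjective x
  rw [← QuotientGroup.mk_pow, QuotientGroup.eq_one_iff]
  have : y ^ n = 1 := Subtype.ext (h y)
  rw [this]
  exact K.one_mem

/-- **Coexistence of the monster properties.** Let `G` be an infinite group with a finite
generating set `S`.

(a) If `G` has type (4), then it has types (2) and (3).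

(b) If `G` has type (5), then it has none of the types (2), (3), (4), and not both types (6)
and (7).

(c) If `G` has type (6), then either `G` has type (2), or `G` has exponential growth and a proper
subgroup that is not cyclic. In particular a group of types (6) and (3), or (6) and (7), has
type (2).

(d) If a finitely presented monster of types (6) and (3), or (6) and (7), exists, then a simple
finitely presented monster of types (2) and (6) exists. -/
theorem result :
    (∀ (G : Type u) [Group G] [Infinite G] (S : Finset G), closure (S : Set G) = ⊤ →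
      (Type4 G → Type2 G ∧ Type3 G) ∧
      (Type5 G → ¬ Type2 G ∧ ¬ Type3 G ∧ ¬ Type4 G ∧ ¬ (Type6 G ∧ Type7 S)) ∧
      (Type6 G → Type2 G ∨ (Exponential S ∧ ∃ H : Subgroup G, H ≠ ⊤ ∧ ¬ IsCyclic H)) ∧
      (Type6 G → Type3 G → Type2 G) ∧
      (Type6 G → Type7 S → Type2 G)) ∧
    ∀ (G : Type u) [Group G] [Infinite G] [Group.IsFinitelyPresented G] (S : Finset G),
      closure (S : Set G) = ⊤ → Type6 G → (Type3 G ∨ Type7 S) →
        ∃ (H : Type u) (_ : Group H), IsSimpleGroup H ∧ Infinite H ∧
          Group.IsFinitelyPresented H ∧ Type2 H ∧ Type6 H := by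
  have key : ∀ (G : Type u) [Group G] [Infinite G] (S : Finset G), closure (S : Set G) = ⊤ →
      (Type4 G → Type2 G ∧ Type3 G) ∧
      (Type5 G → ¬ Type2 G ∧ ¬ Type3 G ∧ ¬ Type4 G ∧ ¬ (Type6 G ∧ Type7 S)) ∧
      (Type6 G → Type2 G ∨ (Exponential S ∧ ∃ H : Subgroup G, H ≠ ⊤ ∧ ¬ IsCyclic H)) ∧
      (Type6 G → Type3 G → Type2 G) ∧
      (Type6 G → Type7 S → Type2 G) := by
    intro G _ _ S hS
    have hfg : Group.FG G := Group.fg_def.2 ⟨S, hS⟩
    have h63 : Type6 G → Type3 G → Type2 G := by
      intro h6 h3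
      by_contra h2
      obtain ⟨-, H, hH, hc⟩ := sixsub S hS h6 h2
      exact hc (h3.2 H hH)
    have h67 : Type6 G → Type7 S → Type2 G := by
      intro h6 h7
      by_contra h2
      exact h7.2 (sixsub S hS h6 h2).1
    refine ⟨fun h => ⟨four_two h, four_three h⟩, fun h5 => ?_, fun h6 => ?_, h63, h67⟩
    · obtain ⟨h1, h2, h3⟩ := fivesub h5
      exact ⟨h1, h2, h3, fun h => h1 (h67 h.1 h.2)⟩
    · by_cases h2 : Type2 G
      · exact Or.inl h2
      · exact Or.inr (sixsub S hS h6 h2)
  refine ⟨key, ?_⟩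
  intro G _ _ _ S hS h6 h
  obtain ⟨-, -, -, h1, h2⟩ := key G S hS
  rcases h with h | h
  · exact stronger h6 (h1 h6 h)
  · exact stronger h6 (h2 h6 h)

end Pool.Agent.Results.MP_65b575_al.CoexistingMonsters
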