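import Pool.Agent.H71R2.Thin.Common
import Pool.Agent.T6.H10.MG.Tree
import Pool.Agent.T6.H10.MG.Ty

/-!
# Finitely presented monsters: nested small cuts and tree-like Schreier graphs

Let `G` be a finitely presented group with finite generating set `S`. If a Schreier graph of `G`
(finite or infinite, of any action) has a chain of more than `(C (s + 1)) ^ (C s)` nested connected
sets with boundaries of at most `s` points which are far from each other, then `G` has an element `g`
whose powers have word length `|g ^ n| ≥ n`, and if the last and the first set differ by finitely many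
points then a subgroup of finite index maps onto `ℤ`.

Finitely presented monsters of type (2), (4) and (6), and all finitely presented torsion groups, have
no such elements. So the chains of nested cuts in all their Schreier graphs are bounded, and for every
`k` the orbits of all their tree-like actions (the Schreier graph lies with fibres of at most `k`
points over a graph without short cycles, for instance a tree) have bounded size. In the starting file
`TreeLikeActions` this is proved only for amenable groups and groups of subexponential growth, without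
subgroups of finite index (with trivial actions as the conclusion). Monsters of type (3) and (5) have no
virtual maps onto `ℤ`, which bounds the chains with finite differences.

Proof. Two of the cuts of a long chain have isomorphic neighbourhoods. The part between them (which
may be infinite) is repeated periodically; since `G` is finitely presented it acts on the resulting
set `W × ℤ`, every generator changes the level by at most one, and a point is moved to a translate of
itself. For tree-like actions the action is first lifted to the universal cover of the graph, where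
the cylinder sets of a long reduced path are nested cuts with at most `k` boundary points. In a group
with finitely many conjugacy classes `c g ^ a c⁻¹ = g ^ b` with `0 < a < b` for every `g`, so that the
powers of `g` do not have linear length.
-/

set_option autoImplicit false

open scoped Pointwise

namespace Pool.Agent.Results.MP_65b575_al.NestedCuts

open Pool.Agent.H71R2.Thin Pool.Agent.T6.H10.MG

universe u v w

/-- Type (2): the exponent is finite. -/
def Type2 (G : Type u) [Group G] : Prop := ∃ n : ℕ, 1 ≤ n ∧ ∀ g : G, g ^ n = 1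

/-- Type (3): `G` is not cyclic, and every proper subgroup of `G` is cyclic. -/
def Type3 (G : Type u) [Group G] : Prop :=
  ¬ IsCyclic G ∧ ∀ H : Subgroup G, H ≠ ⊤ → IsCyclic H

/-- Type (4): for some prime `p` every nontrivial proper subgroup is cyclic of order `p`. -/
def Type4 (G : Type u) [Group G] : Prop :=
  ∃ p : ℕ, p.Prime ∧ ∀ H : Subgroup G, H ≠ ⊥ → H ≠ ⊤ → IsCyclic H ∧ Nat.card H = p

/-- Type (5): `G` is complete. -/
def Type5 (G : Type u) [Group G] : Prop :=
  ∀ g : G, ∀ m : ℕ, 1 ≤ m → ∃ h : G, h ^ m = g

/-- Type (6): `G` has finitely many conjugacy classes. -/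
def Type6 (G : Type u) [Group G] : Prop := Finite (ConjClasses G)

/-- Every element has finite order. -/
def Torsion (G : Type u) [Group G] : Prop := ∀ g : G, ∃ n : ℕ, 0 < n ∧ g ^ n = 1

/-- The generators, their inverses and `1`. -/
def letters {G : Type u} [Group G] (S : Finset G) : Set G := (S : Set G) ∪ (S : Set G)⁻¹ ∪ {1}

/-- The word length of `g ^ n` is at least `n`, for all `n`. -/
def Linear {G : Type u} [Group G] (S : Finset G) (g : G) : Prop :=
  ∀ n m : ℕ, g ^ n ∈ letters S ^ m → n ≤ m

/-- Some subgroup of finite index maps onto `ℤ`. -/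
def VirtuallyOntoZ (G : Type u) [Group G] : Prop :=
  ∃ K : Subgroup G, K.FiniteIndex ∧ ∃ f : K →* Multiplicative ℤ, Function.Surjective f

/-- `y` can be reached from `x` in the Schreier graph inside `E`. -/
def Joined {G : Type u} [Group G] (S : Finset G) {X : Type v} [MulAction G X] (E : Set X)
    (x y : X) : Prop :=
  Relation.ReflTransGen (fun a b => b ∈ E ∧ ∃ s ∈ letters S, b = s • a) x y

/-- A chain of nested connected sets `E 0 ⊆ E 1 ⊆ … ⊆ E N` containing `x₀`, with boundaries of at most
`s` points: the ball of radius `r` around each point of `E i` lies in `E (i + 1)`, and `E N` does not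
contain the whole orbit. The sets may be infinite. -/
structure Cuts {G : Type u} [Group G] (S : Finset G) {X : Type v} [MulAction G X] (x₀ : X)
    (r s N : ℕ) (E : ℕ → Set X) : Prop where
  base : ∀ i ≤ N, x₀ ∈ E i
  joined : ∀ i ≤ N, ∀ y ∈ E i, Joined S (E i) x₀ y
  far : ∀ i < N, ∀ g ∈ letters S ^ r, ∀ x ∈ E i, g • x ∈ E (i + 1)
  cut : ∀ i ≤ N, {x | x ∈ E i ∧ ∃ a ∈ letters S, a • x ∉ E i}.encard ≤ s
  proper : ∃ g : G, g • x₀ ∉ E N

/-- The graph `T` has no cycle of length at most `L`. -/
def NoShortCycle {V : Type w} (T : SimpleGraph V) (L : ℕ) : Prop :=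
  ∀ (v : V) (c : T.Walk v v), c.IsCycle → L < c.length

/-- The Schreier graph of the action of `G` on `X` with respect to `S` lies over the graph `T`,
which has no cycle of length at most `L`: the fibres of `π : X → V` have at most `k` points, and the
generators move points inside the fibres or along edges of `T`. -/
structure TreeLike {G : Type u} [Group G] (S : Finset G) {X : Type v} [MulAction G X] {V : Type w}
    (T : SimpleGraph V) (π : X → V) (L k : ℕ) : Prop where
  girth : NoShortCycle T L
  fibre : ∀ t : V, {x | π x = t}.encard ≤ k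
  move : ∀ x, ∀ s ∈ S, π (s • x) = π x ∨ T.Adj (π x) (π (s • x))

theorem joined_conn {G : Type u} [Group G] {S : Finset G} {X : Type v} [MulAction G X]
    {E : Set X} {x y : X} (h : Joined S E x y) : Conn (sym (S : Set G)) E x y := by
  induction h with
  | refl => exact Conn.base
  | tail _ hbc ih =>
    obtain ⟨hE, s, hs, rfl⟩ := hbc
    exact Conn.step ih hs hE

theorem encard_iff {X : Type v} {A : Set X} {s : ℕ} (h : A.encard ≤ s) :
    A.Finite ∧ A.ncard ≤ s := Set.encard_le_coe_iff_finite_ncard_le.1 h

theorem type4_type3 {G : Type u} [Group G] [Infinite G] (h : Type4 G) :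
    Type3 G ∧ ∀ g : G, ∃ n, 0 < n ∧ g ^ n = 1 := by
  obtain ⟨p, hp, h⟩ := h
  have hnc : ¬ IsCyclic G := by
    rintro ⟨c, hc⟩
    have hcf : ¬ IsOfFinOrder c := by
      intro hf
      have h1 : (Set.univ : Set G).Finite := by
        refine hf.finite_zpowers.subset ?_
        intro g _
        obtain ⟨a, ha⟩ := hc g
        exact ⟨a, ha⟩
      exact Set.infinite_univ h1
    have h1 : Subgroup.zpowers (c ^ (2 : ℤ)) ≠ ⊥ := by
      intro e
      rw [Subgroup.zpowers_eq_bot] at e
      have := Pool.Agent.R673.MG.zpow_inj_of hcf (e.trans (zpow_zero c).symm)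
      omega
    have h2 : Subgroup.zpowers (c ^ (2 : ℤ)) ≠ ⊤ := by
      intro e
      have h3 : c ∈ Subgroup.zpowers (c ^ (2 : ℤ)) := by rw [e]; trivial
      obtain ⟨a, ha⟩ := h3
      have ha' : (c ^ (2 : ℤ)) ^ a = c ^ (1 : ℤ) := by rw [zpow_one]; exact ha
      rw [← zpow_mul] at ha'
      have := Pool.Agent.R673.MG.zpow_inj_of hcf ha'
      omega
    obtain ⟨-, h3⟩ := h _ h1 h2
    rw [Nat.card_zpowers] at h3
    have h4 : IsOfFinOrder (c ^ (2 : ℤ)) := by
      rw [← orderOf_pos_iff, h3]
      exact hp.pos
    apply hcf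
    obtain ⟨n, hn, hn1⟩ := isOfFinOrder_iff_pow_eq_one.1 h4
    rw [← zpow_natCast, ← zpow_mul] at hn1
    have := Pool.Agent.R673.MG.zpow_inj_of hcf (hn1.trans (zpow_zero c).symm)
    omega
  refine ⟨⟨hnc, ?_⟩, ?_⟩
  · intro H hH
    by_cases hb : H = ⊥
    · rw [hb]
      exact isCyclic_of_subsingleton
    · exact (h H hb hH).1
  · intro g
    by_cases hb : Subgroup.zpowers g = ⊥
    · rw [Subgroup.zpowers_eq_bot] at hb
      exact ⟨1, one_pos, by rw [hb, one_pow]⟩
    · have ht : Subgroup.zpowers g ≠ ⊤ := by
        intro e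
        apply hnc
        refine ⟨g, fun x => ?_⟩
        have hx : x ∈ Subgroup.zpowers g := by rw [e]; trivial
        exact hx
      have h1 := (h _ hb ht).2
      rw [Nat.card_zpowers] at h1
      exact ⟨p, hp.pos, by rw [← h1]; exact pow_orderOf_eq_one g⟩

/-- **Finitely presented monsters have no long chains of nested small cuts and no large tree-like
orbits.** -/
theorem result (G : Type u) [Group G] [Infinite G] [Group.IsFinitelyPresented G] (S : Finset G)
    (hS : Subgroup.closure (S : Set G) = ⊤) :
    -- (1) all finitely presented groups: long chains of nested cuts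
    (∃ C : ℕ, 0 < C ∧ ∀ (X : Type v) [MulAction G X] (x₀ : X) (s N : ℕ) (E : ℕ → Set X),
      Cuts S x₀ C s N E → (C * (s + 1)) ^ (C * s) ≤ N →
        (∃ g : G, Linear S g) ∧ ((E N \ E 0).Finite → VirtuallyOntoZ G)) ∧
    -- (2) all finitely presented groups: tree-like actions with unbounded orbits
    ((¬ ∃ g : G, Linear S g) → ∃ L : ℕ, ∀ k : ℕ, ∃ C : ℕ,
      ∀ (X : Type v) [MulAction G X] (V : Type w) (T : SimpleGraph V) (π : X → V),
        TreeLike S T π L k → ∀ x : X, (MulAction.orbit G x).encard ≤ C) ∧
    -- (3) monsters of type (2), (4), (6) and torsion groups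
    ((Type2 G ∨ Type4 G ∨ Type6 G ∨ Torsion G) →
      (∃ C : ℕ, 0 < C ∧ ∀ (X : Type v) [MulAction G X] (x₀ : X) (s N : ℕ) (E : ℕ → Set X),
        Cuts S x₀ C s N E → N < (C * (s + 1)) ^ (C * s)) ∧
      ∃ L : ℕ, ∀ k : ℕ, ∃ C : ℕ,
        ∀ (X : Type v) [MulAction G X] (V : Type w) (T : SimpleGraph V) (π : X → V),
          TreeLike S T π L k → ∀ x : X, (MulAction.orbit G x).encard ≤ C ∧
            (Type4 G → ∀ g : G, g • x = x)) ∧
    -- (4) monsters of type (3) and (5)
    (Type3 G ∨ Type5 G → ∃ C : ℕ, 0 < C ∧
      ∀ (X : Type v) [MulAction G X] (x₀ : X) (s N : ℕ) (E : ℕ → Set X),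
        Cuts S x₀ C s N E → (E N \ E 0).Finite → N < (C * (s + 1)) ^ (C * s)) := by
  have hcl := sym_closure hS
  have part1 : ∃ C : ℕ, 0 < C ∧ ∀ (X : Type v) [MulAction G X] (x₀ : X) (s N : ℕ)
      (E : ℕ → Set X), Cuts S x₀ C s N E → (C * (s + 1)) ^ (C * s) ≤ N →
        (∃ g : G, Linear S g) ∧ ((E N \ E 0).Finite → VirtuallyOntoZ G) := by
    obtain ⟨C, hC0, hC⟩ := nested.{u, v} (sym_finite S) (one_mem_sym _) hcl inv_mem_sym
    refine ⟨C, hC0, fun X _ x₀ s N E h hN => ?_⟩
    exact hC X x₀ s N E h.base (fun i hi y hy => joined_conn (h.joined i hi y hy)) h.far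
      (fun i hi => encard_iff (h.cut i hi)) h.proper hN
  have part2 : (¬ ∃ g : G, Linear S g) → ∃ L : ℕ, ∀ k : ℕ, ∃ C : ℕ,
      ∀ (X : Type v) [MulAction G X] (V : Type w) (T : SimpleGraph V) (π : X → V),
        TreeLike S T π L k → ∀ x : X, (MulAction.orbit G x).encard ≤ C := by
    intro hno
    obtain ⟨L, hL⟩ := tree_bound.{u, v, w} (sym_finite S) (one_mem_sym _) hcl inv_mem_sym hno
    refine ⟨L, fun k => ?_⟩
    obtain ⟨C, hC⟩ := hL k
    refine ⟨C, fun X _ V T π h x => ?_⟩
    refine Set.encard_le_coe_iff_finite_ncard_le.2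
      (hC X V T π h.girth (fun t => encard_iff (h.fibre t)) ?_ x)
    rintro x s ((hs | hs) | hs)
    · exact h.move x s hs
    · have h1 := h.move (s • x) s⁻¹ hs
      rw [inv_smul_smul] at h1
      exact h1.imp Eq.symm fun h2 => h2.symm
    · rw [Set.mem_singleton_iff.1 hs, one_smul]
      exact Or.inl rfl
  have hnol : (Type2 G ∨ Type4 G ∨ Type6 G ∨ Torsion G) → ¬ ∃ g : G, Linear S g := by
    rintro (⟨n, hn, h⟩ | h | h | h)
    · exact no_und_of_torsion fun g => ⟨n, hn, h g⟩
    · exact no_und_of_torsion (type4_type3 h).2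
    · have : Finite (ConjClasses G) := h
      exact no_und_of_conj (one_mem_sym _) hcl
    · exact no_und_of_torsion h
  refine ⟨part1, part2, fun h => ⟨?_, ?_⟩, fun h => ?_⟩
  · obtain ⟨C, hC0, hC⟩ := part1
    refine ⟨C, hC0, fun X _ x₀ s N E hE => ?_⟩
    by_contra hlt
    exact hnol h (hC X x₀ s N E hE (not_lt.1 hlt)).1
  · obtain ⟨L, hL⟩ := part2 (hnol h)
    refine ⟨L, fun k => ?_⟩
    obtain ⟨C, hC⟩ := hL k
    refine ⟨C, fun X _ V T π hT x => ⟨hC X V T π hT x, fun h4 g => ?_⟩⟩
    have h5 := (type4_type3 h4).1
    have h6 : Finite (MulAction.orbit G x) := (encard_iff (hC X V T π hT x)).1.to_subtype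
    have h7 : (MulAction.stabilizer G x).FiniteIndex := by
      have : Finite (G ⧸ MulAction.stabilizer G x) :=
        Finite.of_equiv _ (MulAction.orbitEquivQuotientStabilizer G x)
      exact Subgroup.finiteIndex_of_finite_quotient
    have h8 := Pool.Agent.R673.MG.cyclic_no_fi h5.1 h5.2 _ h7
    have h9 : g ∈ MulAction.stabilizer G x := by rw [h8]; trivial
    exact h9
  · have hvz : ¬ VirtuallyOntoZ G := by
      rcases h with h | h
      · exact not_vz_of_no_fi (Pool.Agent.R673.MG.cyclic_no_fi h.1 h.2)
      · exact not_vz_of_no_fi (Pool.Agent.R673.MG.complete_no_fi h)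
    obtain ⟨C, hC0, hC⟩ := part1
    refine ⟨C, hC0, fun X _ x₀ s N E hE hfin => ?_⟩
    by_contra hlt
    exact hvz ((hC X x₀ s N E hE (not_lt.1 hlt)).2 hfin)

end Pool.Agent.Results.MP_65b575_al.NestedCuts
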