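import Pool.Agent.T6.H22.Mon2

/-!
# Finitely presented monsters of type (3), (4) or (6) exist if and only if simple ones exist

The reduction for type (6) is `Pool.Agent.V11238.MG.conj_main` of the starting files (not used in any
hand-in there).
-/

set_option autoImplicit false

open Subgroup Pool.Agent.T6.H22.Mon

namespace Pool.Agent.Results.MP_65b575_al.SimpleMonsters

universe u

/-- `G` is infinite and finitely presented and has the property `P`. -/
def FPMonster (P : ∀ (G : Type u) [Group G], Prop) (G : Type u) [Group G] : Prop :=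
  Infinite G ∧ Group.IsFinitelyPresented G ∧ P G

theorem three (G : Type u) [Group G] (h : FPMonster Type3 G) :
    IsSimpleGroup (G ⧸ center G) ∧ FPMonster Type3 (G ⧸ center G) ∧ IsCyclic (center G) ∧
      commutator G = ⊤ ∧ (∀ N : Subgroup G, N.Normal → N ≠ ⊤ → N ≤ center G) ∧
      (center G = ⊥ ∨ ∀ x : G ⧸ center G, IsOfFinOrder x) := by
  obtain ⟨hinf, hfp, h3⟩ := h
  have hfg : Group.FG G := fg_of_fp G
  have h : T3 G := h3
  refine ⟨h.simple, ⟨h.infinite, h.fp, h.quot⟩, h.2 _ (center_ne_top h.nofi),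
    commutator_eq_top h.nofi, fun N hN hne => h.normal_le N hne, ?_⟩
  by_cases hc : center G = ⊥
  · exact Or.inl hc
  · right
    intro x
    obtain ⟨g, rfl⟩ := QuotientGroup.mk_surjective x
    obtain ⟨n, hn, hg⟩ := h.tors hc g
    rw [isOfFinOrder_iff_pow_eq_one]
    refine ⟨n, hn, ?_⟩
    rw [← QuotientGroup.mk_pow, QuotientGroup.eq_one_iff]
    exact hg

theorem four (G : Type u) [Group G] (h : FPMonster Type4 G) : IsSimpleGroup G := by
  obtain ⟨hinf, hfp, h4⟩ := h
  have hfg : Group.FG G := fg_of_fp G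
  exact Type4.simple h4

theorem six (G : Type u) [Group G] (h : FPMonster Type6 G) :
    ∃ (M : Subgroup G) (K : Subgroup M) (_ : K.Normal), M.Normal ∧ M.FiniteIndex ∧
      (∀ H : Subgroup M, H.FiniteIndex → H = ⊤) ∧ IsSimpleGroup (M ⧸ K) ∧
      FPMonster Type6 (M ⧸ K) := by
  obtain ⟨hinf, hfp, h6⟩ := h
  have : Finite (ConjClasses G) := h6
  obtain ⟨h1, h2, ⟨K, hK, hs⟩, h4⟩ := Pool.Agent.V11238.MG.conj_main (G := G)
  obtain ⟨h5, h6, h7⟩ := h4 K hs
  exact ⟨_, K, hK, Pool.Agent.V11238.MG.resid_normal, h1, h2, hs, h5, h6, h7⟩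

/-- **Reduction to simple groups.** Let `G` be an infinite finitely presented group.

(a) If `G` has type (3), then `G` is perfect, its center is cyclic and contains all proper normal
subgroups, the group `G / Z(G)` is a simple finitely presented monster of type (3), and either
`Z(G) = 1` (so `G` is simple) or `G / Z(G)` is a torsion group.

(b) If `G` has type (4), then `G` is simple.

(c) If `G` has type (6), then some normal subgroup `M` of finite index of `G` has no proper
subgroups of finite index and a quotient `M / K` which is a simple finitely presented monster of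
type (6).

(d) Hence for `k = 3, 4, 6` a finitely presented monster of type (k) exists if and only if a simple
one exists. -/
theorem result :
    (∀ (G : Type u) [Group G], FPMonster Type3 G →
      IsSimpleGroup (G ⧸ center G) ∧ FPMonster Type3 (G ⧸ center G) ∧ IsCyclic (center G) ∧
        commutator G = ⊤ ∧ (∀ N : Subgroup G, N.Normal → N ≠ ⊤ → N ≤ center G) ∧
        (center G = ⊥ ∨ ∀ x : G ⧸ center G, IsOfFinOrder x)) ∧
    (∀ (G : Type u) [Group G], FPMonster Type4 G → IsSimpleGroup G) ∧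
    (∀ (G : Type u) [Group G], FPMonster Type6 G →
      ∃ (M : Subgroup G) (K : Subgroup M) (_ : K.Normal), M.Normal ∧ M.FiniteIndex ∧
        (∀ H : Subgroup M, H.FiniteIndex → H = ⊤) ∧ IsSimpleGroup (M ⧸ K) ∧
        FPMonster Type6 (M ⧸ K)) ∧
    ((∃ (G : Type u) (_ : Group G), FPMonster Type3 G) ↔
      ∃ (G : Type u) (_ : Group G), FPMonster Type3 G ∧ IsSimpleGroup G) ∧
    ((∃ (G : Type u) (_ : Group G), FPMonster Type4 G) ↔
      ∃ (G : Type u) (_ : Group G), FPMonster Type4 G ∧ IsSimpleGroup G) ∧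
    ((∃ (G : Type u) (_ : Group G), FPMonster Type6 G) ↔
      ∃ (G : Type u) (_ : Group G), FPMonster Type6 G ∧ IsSimpleGroup G) := by
  refine ⟨three, four, six, ⟨?_, ?_⟩, ⟨?_, ?_⟩, ⟨?_, ?_⟩⟩
  · rintro ⟨G, hG, h⟩
    obtain ⟨h1, h2, -⟩ := three G h
    exact ⟨G ⧸ center G, inferInstance, h2, h1⟩
  · rintro ⟨G, hG, h, -⟩
    exact ⟨G, hG, h⟩
  · rintro ⟨G, hG, h⟩
    exact ⟨G, hG, h, four G h⟩
  · rintro ⟨G, hG, h, -⟩
    exact ⟨G, hG, h⟩
  · rintro ⟨G, hG, h⟩
    obtain ⟨M, K, hK, -, -, -, h1, h2⟩ := six G h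
    exact ⟨M ⧸ K, inferInstance, h2, h1⟩
  · rintro ⟨G, hG, h, -⟩
    exact ⟨G, hG, h⟩

end Pool.Agent.Results.MP_65b575_al.SimpleMonsters
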