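import Pool.Agent.T6.H22.Tow

/-!
# Monsters with finitely many conjugacy classes: cyclic subgroups with tower distortion

Let `G` be a group with a finite generating set `S` and with finitely many conjugacy classes of
elements of infinite order (for example, of type (6): finitely many conjugacy classes). Then every
element `g` of infinite order is distorted like a tower of exponentials: for every `n` there is an
`N ≥ 2 ^ 2 ^ ... ^ 2` (`n` twos) such that the word length of `g ^ N` is at most `C 2 ^ n + D`. So the
distortion of the cyclic subgroups grows faster than every iterated exponential, as for the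
Baumslag-Gersten group. (The starting point, in `CoexistingMonsters`, is exponential distortion.)

Hence, if `f : G → H` is a homomorphism into a finitely generated group in which every infinite
cyclic subgroup that meets `f G` has at most iterated exponential distortion, then `f G` is a torsion
group. So if a finitely presented monster of type (6) exists, then a simple finitely presented
monster of type (6) exists which has type (2), or does not map nontrivially to any such group `H`.

Proof. Two of the powers `g ^ (2 ^ i)` are conjugate: `t h t⁻¹ = h ^ b` with `h = g ^ (2 ^ i)` and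
`b ≥ 2`. The element `t` has infinite order (if `t ^ r = 1` then `h ^ (b ^ r - 1) = 1`). There are
finitely many classes, so by induction some power `t ^ N`, with `N` at least the tower of height
`n`, has word length at most `L n`; and `t ^ N h t ^ (-N) = h ^ (b ^ N)` has length at most
`2 L n + const`.
-/

set_option autoImplicit false

open scoped Pointwise

open Subgroup Pool.Agent.T6.H22.Mon

namespace Pool.Agent.Results.MP_65b575_al.TowerDistortion

universe u v

/-- The elements of word length at most `n` with respect to `S`. -/
def ball {G : Type u} [Group G] (S : Finset G) (n : ℕ) : Set G :=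
  ((S : Set G) ∪ (S : Set G)⁻¹ ∪ {1}) ^ n

/-- The tower `2 ^ 2 ^ ... ^ 2` with `n` twos. -/
def tower : ℕ → ℕ
  | 0 => 1
  | n + 1 => 2 ^ tower n

/-- Every element `g` of infinite order has tower distortion: for every `n` there is an `N ≥ tower n`
such that `g ^ N` has word length at most `C 2 ^ n + D`, where `C` does not depend on `g`. -/
def TowerDistorted {G : Type u} [Group G] (S : Finset G) : Prop :=
  ∃ C : ℕ, ∀ g : G, ¬ IsOfFinOrder g → ∃ D : ℕ, ∀ n : ℕ, ∃ N : ℕ, tower n ≤ N ∧
    g ^ N ∈ ball S (C * 2 ^ n + D)

/-- The powers of `h` have at most iterated exponential distortion: for some `k` and `c`, if `h ^ N`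
has word length at most `m` then `N` is at most the `k`-fold exponential of `c (m + 1)`. -/
def IteratedExponential {H : Type v} [Group H] (T : Finset H) (h : H) : Prop :=
  ∃ k c : ℕ, ∀ N m : ℕ, h ^ N ∈ ball T m → N ≤ (fun y : ℕ => 2 ^ y)^[k] (c * (m + 1))

theorem tower_eq (n : ℕ) : tower n = Pool.Agent.T6.H22.Tow.tower n := by
  induction n with
  | zero => rfl
  | succ n ih => exact congrArg (fun y => 2 ^ y) ih

theorem distorted {G : Type u} [Group G] (S : Finset G) (hS : closure (S : Set G) = ⊤)
    (hfin : Pool.Agent.T6.H22.Tow.FinInf G) : TowerDistorted S := by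
  obtain ⟨C, hC⟩ := Pool.Agent.T6.H22.Tow.distortion hS hfin
  refine ⟨C, fun g hg => ?_⟩
  obtain ⟨D, hD⟩ := hC g hg
  refine ⟨D, fun n => ?_⟩
  obtain ⟨N, h1, h2⟩ := hD n
  exact ⟨N, by rw [tower_eq]; exact h1, h2⟩

theorem torsion {G : Type u} [Group G] (S : Finset G) (hS : closure (S : Set G) = ⊤)
    (hfin : Pool.Agent.T6.H22.Tow.FinInf G) {H : Type v} [Group H] (T : Finset H) (f : G →* H)
    (hT : ∀ g, f g ∈ closure (T : Set H))
    (hel : ∀ g, ¬ IsOfFinOrder (f g) → IteratedExponential T (f g)) (g : G) :
    IsOfFinOrder (f g) := by
  by_contra hg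
  exact Pool.Agent.T6.H22.Tow.not_elementary hS hfin f hT hg (hel g hg)

theorem finInf_of_six {G : Type u} [Group G] (h6 : Type6 G) :
    Pool.Agent.T6.H22.Tow.FinInf G := by
  have : Finite (ConjClasses G) := h6
  exact Set.toFinite _

/-- **Tower distortion.** Let `G` be a group with a finite generating set `S` and with finitely many
conjugacy classes of elements of infinite order.

(a) All elements of infinite order have tower distortion.

(b) If `f : G → H` is a homomorphism into a group generated by a finite set `T` (it is enough that the
image is in the subgroup generated by `T`) and the elements of infinite order in the image have at most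
iterated exponential distortion, then the image is a torsion group.

(c) If `G` is a finitely presented monster of type (6), then there is a simple finitely presented
monster `P` of type (6) such that either `P` has type (2), or `P` has elements of infinite order, all
of them with tower distortion, and for every nontrivial homomorphism of `P` into a group generated by
a finite set `T` the image contains an element of infinite order whose distortion is not at most
iterated exponential.

(d) If `G` is a finitely presented monster of type (6) and `f : G → H` is injective and as in (b), then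
`G` has type (2), and a simple finitely presented monster of types (2) and (6) exists. -/
theorem result :
    (∀ (G : Type u) [Group G] (S : Finset G), closure (S : Set G) = ⊤ →
      {c : ConjClasses G | ∃ g : G, ¬ IsOfFinOrder g ∧ ConjClasses.mk g = c}.Finite →
      TowerDistorted S ∧
      ∀ (H : Type v) [Group H] (T : Finset H) (f : G →* H), (∀ g, f g ∈ closure (T : Set H)) →
        (∀ g, ¬ IsOfFinOrder (f g) → IteratedExponential T (f g)) → ∀ g, IsOfFinOrder (f g)) ∧
    ∀ (G : Type u) [Group G] [Infinite G] [Group.IsFinitelyPresented G], Type6 G →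
      (∃ (P : Type u) (_ : Group P), IsSimpleGroup P ∧ Infinite P ∧
        Group.IsFinitelyPresented P ∧ Type6 P ∧
        (Type2 P ∨ ((∃ g : P, ¬ IsOfFinOrder g) ∧
          (∀ S : Finset P, closure (S : Set P) = ⊤ → TowerDistorted S) ∧
          ∀ (H : Type v) [Group H] (T : Finset H) (f : P →* H),
            (∀ g, f g ∈ closure (T : Set H)) → (∃ g, f g ≠ 1) →
            ∃ g, ¬ IsOfFinOrder (f g) ∧ ¬ IteratedExponential T (f g)))) ∧
      ∀ (H : Type v) [Group H] (T : Finset H) (f : G →* H), Function.Injective f →
        (∀ g, f g ∈ closure (T : Set H)) →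
        (∀ g, ¬ IsOfFinOrder (f g) → IteratedExponential T (f g)) →
        Type2 G ∧ ∃ (P : Type u) (_ : Group P), IsSimpleGroup P ∧ Infinite P ∧
          Group.IsFinitelyPresented P ∧ Type2 P ∧ Type6 P := by
  refine ⟨fun G _ S hS hfin => ⟨distorted S hS hfin, fun H _ T f hT hel g =>
    torsion S hS hfin T f hT hel g⟩, ?_⟩
  intro G _ _ hfp h6
  have hc : Finite (ConjClasses G) := h6
  obtain ⟨-, -, ⟨K, hK, hs⟩, h4⟩ := Pool.Agent.V11238.MG.conj_main (G := G)
  obtain ⟨h5, hfpK, h7⟩ := h4 K hs
  constructor
  · refine ⟨↥(Pool.Agent.V11238.MG.resid G) ⧸ K, inferInstance, hs, h5, hfpK, h7, ?_⟩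
    by_cases h2 : Type2 (↥(Pool.Agent.V11238.MG.resid G) ⧸ K)
    · exact Or.inl h2
    right
    have hfg : Group.FG (↥(Pool.Agent.V11238.MG.resid G) ⧸ K) := fg_of_fp _
    obtain ⟨S, hS⟩ := Group.fg_def.1 hfg
    have h8 : ∃ g : ↥(Pool.Agent.V11238.MG.resid G) ⧸ K, ¬ IsOfFinOrder g := by
      by_contra hcon
      push Not at hcon
      exact h2 (two_of_torsion h7 hcon)
    refine ⟨h8, fun S' hS' => distorted S' hS' (finInf_of_six h7), ?_⟩
    intro H _ T f hT hne
    by_contra hcon
    push Not at hcon
    have htor := torsion S hS (finInf_of_six h7) T f hT hcon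
    have hinj : Function.Injective f := by
      rw [← MonoidHom.ker_eq_bot_iff]
      rcases hs.eq_bot_or_eq_top_of_normal f.ker inferInstance with h | h
      · exact h
      · obtain ⟨g, hg⟩ := hne
        have : g ∈ f.ker := by rw [h]; trivial
        exact absurd this hg
    obtain ⟨g, hg⟩ := h8
    exact hg (isOfFinOrder_iff_pow_eq_one.2 (by
      obtain ⟨n, hn, h⟩ := isOfFinOrder_iff_pow_eq_one.1 (htor g)
      exact ⟨n, hn, hinj (by rw [map_pow, h, map_one])⟩))
  · intro H _ T f hinj hT hel
    have hfg : Group.FG G := fg_of_fp _
    obtain ⟨S, hS⟩ := Group.fg_def.1 hfg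
    have htor := torsion S hS (finInf_of_six h6) T f hT hel
    have h2 : Type2 G := two_of_torsion h6 fun g => isOfFinOrder_iff_pow_eq_one.2 (by
      obtain ⟨n, hn, h⟩ := isOfFinOrder_iff_pow_eq_one.1 (htor g)
      exact ⟨n, hn, hinj (by rw [map_pow, h, map_one])⟩)
    refine ⟨h2, ↥(Pool.Agent.V11238.MG.resid G) ⧸ K, inferInstance, hs, h5, hfpK, ?_, h7⟩
    obtain ⟨n, hn, h⟩ := h2
    refine ⟨n, hn, fun x => ?_⟩
    obtain ⟨y, rfl⟩ := QuotientGroup.mk_surjective x
    rw [← QuotientGroup.mk_pow, QuotientGroup.eq_one_iff]
    have : y ^ n = 1 := Subtype.ext (h y)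
    rw [this]
    exact K.one_mem

end Pool.Agent.Results.MP_65b575_al.TowerDistortion
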